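import Pool.Agent.Lib.MP_d98eb9_al.PD.Trk

/-! A set that is nested with its translates gives a splitting over its stabiliser. -/

namespace Pool.Agent.Lib.MP_d98eb9_al.W

open Gen

variable {G : Type}

namespace NestP

/-- The cut `B` lies on the `A` side of the cut `A`. -/
def In (A B : Set G) : Prop := B ≠ A ∧ (B ⊆ A ∨ Bᶜ ⊂ A)

/-- Neither empty nor everything. -/
def Pr (A : Set G) : Prop := (∃ a, a ∈ A) ∧ ∃ a, a ∉ A

variable {A B C : Set G}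

theorem out_of (h : Nest A B) (hne : B ≠ A) (hn : ¬ In A B) : B ⊆ Aᶜ ∨ A ⊂ B := by
  rcases h with h | h | h | h
  · exact Or.inr (h.ssubset_of_ne hne.symm)
  · exact Or.inl (Set.subset_compl_comm.mp h)
  · have h1 : Bᶜ ⊆ A := Set.compl_subset_comm.mp h
    by_cases e : Bᶜ = A
    · exact Or.inl (by rw [← e, compl_compl])
    · exact absurd ⟨hne, Or.inr (h1.ssubset_of_ne e)⟩ hn
  · exact absurd ⟨hne, Or.inl (Set.compl_subset_compl.mp h)⟩ hn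

theorem css (h : Bᶜ ⊂ A) : Aᶜ ⊂ B := by
  have := compl_lt_compl_iff_lt.mpr (show Bᶜ < A from h)
  rwa [compl_compl] at this

theorem key1 (hA : Pr A) (hB : Pr B) (hC : Pr C) (h1 : In A B) (h2 : C ⊆ Aᶜ ∨ A ⊂ C) :
    In B C ↔ In B A := by
  obtain ⟨⟨a, ha⟩, a', ha'⟩ := hA
  obtain ⟨⟨b, hb⟩, b', hb'⟩ := hB
  obtain ⟨⟨c, hc⟩, c', hc'⟩ := hC
  obtain ⟨hne, h1 | h1⟩ := h1
  · have s := h1.ssubset_of_ne hne
    refine iff_of_false ?_ ?_
    · rintro ⟨-, h | h⟩ <;> rcases h2 with h2 | h2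
      · exact h2 hc (h1 (h hc))
      · exact (s.trans h2).not_subset h
      · exact (h.trans s).not_subset (Set.subset_compl_comm.mp h2)
      · exact hc' (h2.1 (h1 (h.1 hc')))
    · rintro ⟨-, h | h⟩
      · exact s.not_subset h
      · exact ha' (h1 (h.1 ha'))
  · have s := css h1
    refine iff_of_true ?_ ⟨hne.symm, Or.inr s⟩
    rcases h2 with h2 | h2
    · exact ⟨(h2.trans_ssubset s).ne, Or.inl (h2.trans s.1)⟩
    · refine ⟨fun e => hb' (e ▸ h2.1 (h1.1 hb')), Or.inr ?_⟩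
      exact (Set.compl_subset_compl.mpr h2.1).trans_ssubset s

theorem key2 (hA : Pr A) (hB : Pr B) (hC : Pr C) (h1 : B ⊆ Aᶜ ∨ A ⊂ B) (h2 : In A C) :
    In B C ↔ In B A := by
  obtain ⟨⟨a, ha⟩, a', ha'⟩ := hA
  obtain ⟨⟨b, hb⟩, b', hb'⟩ := hB
  obtain ⟨⟨c, hc⟩, c', hc'⟩ := hC
  obtain ⟨hne, h2⟩ := h2
  rcases h1 with h1 | h1
  · refine iff_of_false ?_ ?_
    · rintro ⟨-, h | h⟩ <;> rcases h2 with h2 | h2
      · exact h1 (h hc) (h2 hc)
      · exact (css h2).not_subset (h.trans h1)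
      · exact h.not_subset (h1.trans (Set.compl_subset_compl.mpr h2))
      · exact h1 (h.1 hc') (h2.1 hc')
    · rintro ⟨-, h | h⟩
      · exact h1 (h ha) ha
      · exact h.not_subset h1
  · refine iff_of_true ?_ ⟨h1.ne, Or.inl h1.1⟩
    rcases h2 with h2 | h2
    · exact ⟨(h2.trans_ssubset h1).ne, Or.inl (h2.trans h1.1)⟩
    · exact ⟨fun e => hb' (h1.1 (h2.1 (e ▸ hb'))), Or.inr (h2.trans h1)⟩

variable [Group G]

theorem tr_inj (g : G) (h : tr g A = tr g B) : A = B := by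
  rw [← tr_inv_tr g A, h, tr_inv_tr]

theorem In.tr (h : In A B) (g : G) : In (tr g A) (tr g B) :=
  ⟨fun e => h.1 (tr_inj g e), h.2.imp (tr_mono g) fun s =>
    (tr_mono g (A := Bᶜ) s.1).ssubset_of_ne fun e => s.ne (tr_inj g e)⟩

theorem in_iff (g : G) : In (tr g A) (tr g B) ↔ In A B :=
  ⟨fun h => by simpa only [tr_inv_tr] using h.tr g⁻¹, fun h => h.tr g⟩

theorem Pr.tr (h : Pr A) (g : G) : Pr (tr g A) := by
  obtain ⟨⟨a, ha⟩, b, hb⟩ := h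
  exact ⟨⟨g * a, mul_mem_tr.mpr ha⟩, g * b, fun e => hb (mul_mem_tr.mp e)⟩

theorem Nest.tr (h : Nest A B) (g : G) : Nest (tr g A) (tr g B) :=
  h.imp (tr_mono g) (Or.imp (tr_mono g) (Or.imp (tr_mono g) (tr_mono g)))

theorem mem_stab {g : G} : g ∈ blk ⊤ A ↔ W.tr g A = A := ⟨fun h => h.2, fun h => ⟨trivial, h⟩⟩

end NestP

variable [Group G]

open NestP in
theorem nest_sys (Γ : Gen G) (Z : Set G) (hn : ∀ g, Nest Z (tr g Z))
    (hco : Γ.Near (Γ.fr Z) (blk ⊤ Z)) (h1 : ∀ ρ, ∃ p, ∀ q, Γ.d p q ≤ ρ → q ∈ Z)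
    (h2 : ∀ ρ, ∃ p, ∀ q, Γ.d p q ≤ ρ → q ∉ Z) : ∃ X', Sys (blk ⊤ Z) X' := by
  obtain ⟨a, ha⟩ : ∃ a, a ∈ Z := (h1 0).imp fun p hp => hp p (by simp)
  obtain ⟨b, hb⟩ : ∃ b, b ∉ Z := (h2 0).imp fun p hp => hp p (by simp)
  have hZ : Pr Z := ⟨⟨a, ha⟩, b, hb⟩
  have i1 : ∀ x y : G, In Z (tr (x⁻¹ * y) Z) ↔ In (tr x Z) (tr y Z) := fun x y => by
    rw [← in_iff x, tr_tr, mul_inv_cancel_left]
  have i2 : ∀ x : G, In Z (tr x⁻¹ Z) ↔ In (tr x Z) Z := fun x => by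
    rw [← in_iff x, tr_tr_inv]
  have mv : ∀ p : G, p ∈ tr (p * a⁻¹) Z ∧ p * a⁻¹ * b ∉ tr (p * a⁻¹) Z ∧
      Γ.d p (p * a⁻¹ * b) ≤ Γ.d a b := fun p =>
    ⟨by simpa using ha, fun e => hb (mul_mem_tr.mp e), by
      rw [d_eq, d_eq a]
      simp [mul_assoc]⟩
  refine ⟨{g | In Z (tr g Z)}, fun x hx e => hx.1 e.2, fun c hc x hx => ?_, fun c hc x hx => ?_,
    fun x y hx hy hxy => ?_, fun y => ?_, ?_, ?_⟩
  · have := In.tr hx c
    rwa [hc.2, tr_tr] at this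
  · change In Z (tr (x * c) Z)
    rwa [← tr_tr, hc.2]
  · change In Z _ ↔ In Z _
    rw [i1, i2]
    by_cases h : In Z (tr x Z)
    · exact key1 hZ (hZ.tr x) (hZ.tr y) h
        (out_of (hn y) (fun e => hy (mem_stab.mpr e)) fun e => hxy (iff_of_true h e))
    · exact key2 hZ (hZ.tr x) (hZ.tr y) (out_of (hn x) (fun e => hx (mem_stab.mpr e)) h)
        (by_contra fun e => hxy (iff_of_false h e))
  · have nn : ∀ x z : G, Nest (tr x Z) (tr z Z) := fun x z => by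
      have := Nest.tr (hn (x⁻¹ * z)) x
      rwa [tr_tr, mul_inv_cancel_left] at this
    have sp : ∀ x u v : G, x⁻¹ * v ∉ blk ⊤ Z → In (tr x Z) (tr u Z) → ¬ In (tr x Z) (tr v Z) →
        (u * a ∈ tr x Z ∨ u * b ∈ tr x Z) ∧ (v * a ∉ tr x Z ∨ v * b ∉ tr x Z) := by
      intro x u v hv hi ho
      refine ⟨hi.2.imp (fun s => s (mul_mem_tr.mpr ha)) fun s =>
        s.1 fun e => hb (mul_mem_tr.mp e), (out_of (nn x v) (fun e => hv (mem_stab.mpr ?_)) ho).imp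
          (fun s => s (mul_mem_tr.mpr ha)) fun s e => hb (mul_mem_tr.mp (s.1 e))⟩
      rw [← tr_tr, e, tr_inv_tr]
    obtain ⟨L, hL⟩ := bdd_of_finite (Γ := Γ) (Set.toFinite {1 * a, 1 * b, y * a, y * b}) 1
    have hW := (ball_finite (Γ := Γ) 1 (3 * L)).biUnion fun p _ => TrkP.orb_finite hco p
    refine (hW.preimage (f := fun q : G ⧸ blk ⊤ Z => tr q.out Z) fun q _ q' _ e => ?_).subset ?_
    · rw [← q.out_eq', ← q'.out_eq']
      refine QuotientGroup.eq.mpr (mem_stab.mpr ?_)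
      have e' : tr q.out Z = tr q'.out Z := e
      rw [← tr_tr, ← e', tr_inv_tr]
    · rintro _ ⟨x, rfl, hx, hxy, hs⟩
      obtain ⟨k, hk⟩ := QuotientGroup.mk_out_eq_mul (blk ⊤ Z) x
      have e : tr (x : G ⧸ blk ⊤ Z).out Z = tr x Z := by rw [hk, ← tr_tr, k.2.2]
      have hs' : ¬ (In (tr x Z) (tr 1 Z) ↔ In (tr x Z) (tr y Z)) := by
        rwa [← i1, ← i1, mul_one]
      obtain ⟨u, hu, v, hv, hu', hv'⟩ : ∃ u ∈ ({1 * a, 1 * b, y * a, y * b} : Set G),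
          ∃ v ∈ ({1 * a, 1 * b, y * a, y * b} : Set G), u ∈ tr x Z ∧ v ∉ tr x Z := by
        by_cases h : In (tr x Z) (tr 1 Z)
        · obtain ⟨s | s, t | t⟩ := sp x 1 y hxy h fun e => hs' (iff_of_true h e) <;>
            exact ⟨_, by simp, _, by simp, s, t⟩
        · obtain ⟨s | s, t | t⟩ := sp x y 1 (by simpa using hx)
            (by_contra fun e => hs' (iff_of_false h e)) h <;>
            exact ⟨_, by simp, _, by simp, s, t⟩
      obtain ⟨p, hp, -, hd⟩ := exists_fr (Γ := Γ) hu' hv'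
      have d1 := hL u hu
      have d2 := hL v hv
      have d3 := d_tri (Γ := Γ) u 1 v
      have d4 := d_comm (Γ := Γ) u 1
      have d5 := d_tri (Γ := Γ) 1 u p
      rw [Set.mem_preimage, e]
      exact Set.mem_biUnion (x := p) (show Γ.d 1 p ≤ 3 * L by omega) ⟨⟨x, rfl⟩, hp⟩
  · obtain ⟨p, hp⟩ := h1 (Γ.d a b)
    obtain ⟨m1, m2, m3⟩ := mv p
    refine ⟨p * a⁻¹, by_contra fun e => ?_⟩
    rcases out_of (hn _) (fun e' => m2 (e'.ge (hp _ m3))) e with s | s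
    · exact s m1 (hp p (by simp))
    · exact m2 (s.1 (hp _ m3))
  · obtain ⟨p, hp⟩ := h2 (Γ.d a b)
    obtain ⟨m1, m2, m3⟩ := mv p
    refine ⟨p * a⁻¹, fun e => hp p (by simp) (e.2.le m1), ?_⟩
    rintro ⟨-, s | s⟩
    · exact hp p (by simp) (s m1)
    · exact hp _ m3 (s.1 m2)

end Pool.Agent.Lib.MP_d98eb9_al.W
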