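import Pool.Agent.Lib.MP_d98eb9_al.W.Linnell
import Pool.Agent.Lib.MP_d98eb9_al.W.Geo
import Pool.Agent.Lib.MP_d98eb9_al.TA.Main

/-! Rank modules from approximating groups. -/

namespace Pool.Agent.Lib.MP_d98eb9_al.W

open MonoidAlgebra Filter

namespace LiftP

variable {L P : Type} [Group L] [Group P]

/-- The additive map of group rings induced by a map of sets. -/
noncomputable def push (f : L → P) : ZG L →+ ZG P := lsum fun g => single (f g) 1

theorem push_single (f : L → P) (g : L) : push f (single g 1) = single (f g) 1 := by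
  simp [push]

theorem push_coeff (f : L → P) (r : ZG L) : (push f r).coeff = r.coeff.mapDomain f := by
  induction r using ind1 with
  | h0 => simp
  | hadd a b ha hb => rw [map_add, coeff_add, coeff_add, Finsupp.mapDomain_add, ha, hb]
  | hneg a ha =>
    rw [map_neg, coeff_neg, coeff_neg, ha]
    exact (map_neg (Finsupp.mapDomain.addMonoidHom (M := ℤ) f) _).symm
  | hs g => rw [push_single, coeff_single, coeff_single, Finsupp.mapDomain_single]

theorem push_ne {f : L → P} {r : ZG L} (hr : r ≠ 0) (hf : Set.InjOn f r.coeff.support) :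
    push f r ≠ 0 := by
  obtain ⟨g, hg⟩ := Finsupp.support_nonempty_iff.mpr (coeff_eq_zero.not.mpr hr)
  intro e
  have := Finsupp.mapDomain_apply' _ r.coeff subset_rfl hf (a := g) hg
  rw [← push_coeff, e] at this
  exact Finsupp.mem_support_iff.mp hg this.symm

end LiftP

open LiftP in
/-- The ultraproduct lemma. -/
theorem rk_ultra {F L : Type} [Group F] [Group L] (π : F →* L) (hπ : Function.Surjective π)
    (h : ∀ V : Finset F, ∃ (P : Type) (_ : Group P) (φ : F →* P), Nonempty (Rk P) ∧
      ∀ v ∈ V, (φ v = 1 ↔ π v = 1)) : Nonempty (Rk L) := by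
  classical
  choose P inst φ hR hφ using h
  have R : ∀ V, Rk (P V) := fun V => (hR V).some
  let U : Ultrafilter (Finset F) := Ultrafilter.of atTop
  have ev : ∀ a b : F, ∀ᶠ V in (U : Filter (Finset F)), (φ V a = φ V b ↔ π a = π b) := by
    intro a b
    refine ((eventually_ge_atTop ({a⁻¹ * b} : Finset F)).filter_mono
      (Ultrafilter.of_le atTop)).mono fun V hV => ?_
    have := hφ V (a⁻¹ * b) (hV (Finset.mem_singleton_self _))
    rwa [map_mul, map_mul, map_inv, map_inv, inv_mul_eq_one, inv_mul_eq_one] at this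
  obtain ⟨σ, hσ⟩ := hπ.hasRightInverse
  let m : ∀ V, ZG L →+ ZG (P V) := fun V => push fun g => φ V (σ g)
  have m1 : ∀ᶠ V in (U : Filter (Finset F)), m V 1 = 1 :=
    (ev (σ 1) 1).mono fun V hV => by
      have e : φ V (σ 1) = 1 := (hV.mpr (by rw [hσ, map_one])).trans (map_one _)
      change push _ (single 1 1) = single 1 1
      rw [push_single, e]
  have mm : ∀ r s, ∀ᶠ V in (U : Filter (Finset F)), m V (r * s) = m V r * m V s := by
    intro r s
    induction r using ind1 with
    | h0 => exact Eventually.of_forall fun V => by simp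
    | hadd a b ha hb =>
      exact (ha.and hb).mono fun V hV => by rw [add_mul, map_add, map_add, add_mul, hV.1, hV.2]
    | hneg a ha => exact ha.mono fun V hV => by rw [neg_mul, map_neg, map_neg, neg_mul, hV]
    | hs g =>
      induction s using ind1 with
      | h0 => exact Eventually.of_forall fun V => by simp
      | hadd a b ha hb =>
        exact (ha.and hb).mono fun V hV => by rw [mul_add, map_add, map_add, mul_add, hV.1, hV.2]
      | hneg a ha => exact ha.mono fun V hV => by rw [mul_neg, map_neg, map_neg, mul_neg, hV]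
      | hs k =>
        refine (ev (σ (g * k)) (σ g * σ k)).mono fun V hV => ?_
        have e := hV.mpr (by rw [map_mul, hσ, hσ, hσ])
        simp only [m]
        rw [single_mul_single, mul_one, push_single, push_single, push_single, single_mul_single,
          mul_one, e, map_mul]
  have mn : ∀ r, r ≠ 0 → ∀ᶠ V in (U : Filter (Finset F)), m V r ≠ 0 := fun r hr =>
    ((eventually_all_finset r.coeff.support).mpr fun a _ =>
      (eventually_all_finset r.coeff.support).mpr fun b _ => ev (σ a) (σ b)).mono
      fun V hV => push_ne hr fun a ha b hb e => by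
        have := (hV a ha b hb).mp e
        rwa [hσ, hσ] at this
  let Z : AddSubgroup (∀ V, (R V).A) :=
    { carrier := {a | ∀ᶠ V in (U : Filter (Finset F)), a V = 0}
      zero_mem' := Eventually.of_forall fun _ => rfl
      add_mem' := fun ha hb => (Eventually.and ha hb).mono fun V hV => by
        rw [Pi.add_apply, hV.1, hV.2, add_zero]
      neg_mem' := fun ha => Eventually.mono ha fun V hV => by rw [Pi.neg_apply, hV, neg_zero] }
  have mk_eq : ∀ a b : ∀ V, (R V).A, (∀ᶠ V in (U : Filter (Finset F)), a V = b V) →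
      (a : (∀ V, (R V).A) ⧸ Z) = b := fun a b e =>
    QuotientAddGroup.eq.mpr (e.mono fun V hV => by rw [Pi.add_apply, Pi.neg_apply, hV, neg_add_cancel])
  have mk_zero : ∀ a : ∀ V, (R V).A, (a : (∀ V, (R V).A) ⧸ Z) = 0 ↔
      ∀ᶠ V in (U : Filter (Finset F)), a V = 0 := fun a => QuotientAddGroup.eq_zero_iff a
  let act0 : (∀ V, (R V).A) →+ ZG L →+ (∀ V, (R V).A) ⧸ Z := AddMonoidHom.mk'
    (fun a => (QuotientAddGroup.mk' Z).comp (AddMonoidHom.mk' (fun r V => (R V).act (a V) (m V r))
      fun r s => funext fun V => by simp))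
    fun a b => AddMonoidHom.ext fun r => by
      change (QuotientAddGroup.mk' Z) _ = (QuotientAddGroup.mk' Z) _ + (QuotientAddGroup.mk' Z) _
      rw [← map_add]
      exact congrArg _ (funext fun V => by simp)
  have ha0 : ∀ a r, act0 a r =
      ((fun V => (R V).act (a V) (m V r) : ∀ V, (R V).A) : (∀ V, (R V).A) ⧸ Z) := fun _ _ => rfl
  let act : ((∀ V, (R V).A) ⧸ Z) →+ ZG L →+ (∀ V, (R V).A) ⧸ Z :=
    QuotientAddGroup.lift Z act0 fun a ha => AddMonoidHom.ext fun r => by
      rw [ha0]
      exact (mk_zero _).mpr (Eventually.mono ha fun V hV => by simp [hV])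
  have ha : ∀ (a : ∀ V, (R V).A) r, act a r =
      ((fun V => (R V).act (a V) (m V r) : ∀ V, (R V).A) : (∀ V, (R V).A) ⧸ Z) := fun _ _ => rfl
  refine ⟨⟨_, act, fun a r s => ?_, fun a => ?_, fun a r => ?_, fun k M => ?_⟩⟩
  · induction a using QuotientAddGroup.induction_on with
    | H a =>
      rw [ha, ha, ha]
      exact mk_eq _ _ ((mm r s).mono fun V hV => by rw [(R V).mul, hV])
  · induction a using QuotientAddGroup.induction_on with
    | H a =>
      rw [ha]
      exact mk_eq _ _ (m1.mono fun V hV => by rw [hV, (R V).one])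
  · induction a using QuotientAddGroup.induction_on with
    | H a =>
      rw [ha, mk_zero, mk_zero]
      refine fun e => or_iff_not_imp_right.mpr fun hr => (e.and (mn r hr)).mono fun V hV => ?_
      exact ((R V).inj _ _ hV.1).resolve_right hV.2
  · choose a h1 h2 using fun V => (R V).rank k fun i j => m V (M i j)
    refine ⟨fun i => ((fun V => a V i : ∀ V, (R V).A) : (∀ V, (R V).A) ⧸ Z), fun e => ?_,
      fun j => ?_⟩
    · obtain ⟨V, hV⟩ := (eventually_all.mpr fun i => (mk_zero _).mp (congrFun e i)).exists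
      exact h1 V (funext hV)
    · simp only [ha]
      rw [← QuotientAddGroup.mk_sum]
      exact (mk_zero _).mpr (Eventually.of_forall fun V => by rw [Finset.sum_apply, h2 V j])

namespace LiftP

variable {Q : Type} [Group Q] {n : ℕ}

/-- Chains as finitely supported functions on edges. -/
noncomputable def conv (Q : Type) [Group Q] (n : ℕ) : Fr Q n →+ (Q × Fin n →₀ ℤ) :=
  ofFun fun g i => Finsupp.single (g, i) 1

theorem conv_e (g : Q) (i : Fin n) : conv Q n (e g i) = Finsupp.single (g, i) 1 := ofFun_e _ _ _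

theorem conv_inj : Function.Injective (conv Q n) :=
  Function.LeftInverse.injective
    (g := Finsupp.liftAddHom fun p : Q × Fin n => zmultiplesHom _ (e p.1 p.2)) fun x =>
      fr_ext (φ := (Finsupp.liftAddHom fun p : Q × Fin n => zmultiplesHom _ (e p.1 p.2)).comp
        (conv Q n)) (ψ := AddMonoidHom.id _) (fun g i => by simp [conv_e]) x

theorem conv_smul (g : Q) (x : Fr Q n) : conv Q n ((single g 1 : ZG Q) • x) =
    (conv Q n x).mapDomain fun p => (g * p.1, p.2) :=
  fr_ext (φ := (conv Q n).comp (DistribSMul.toAddMonoidHom _ (single g 1 : ZG Q)))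
    (ψ := (Finsupp.mapDomain.addMonoidHom fun p : Q × Fin n => (g * p.1, p.2)).comp (conv Q n))
    (fun k i => by
      change conv Q n ((single g 1 : ZG Q) • e k i) = (conv Q n (e k i)).mapDomain _
      rw [smul_e, conv_e, conv_e, Finsupp.mapDomain_single]) x

theorem conv_bd (s : Fin n → Q) (x : Fr Q n) :
    (conv Q n x).sum (fun p k => Finsupp.single (p.1 * s p.2) k - Finsupp.single p.1 k) =
      (bd s x).coeff :=
  fr_ext (φ := (Finsupp.liftAddHom fun p : Q × Fin n =>
      Finsupp.singleAddHom (p.1 * s p.2) - Finsupp.singleAddHom p.1).comp (conv Q n))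
    (ψ := coeffAddEquiv.toAddMonoidHom.comp (bd s).toAddMonoidHom)
    (fun k i => by simp [conv_e, bd_e]) x

end LiftP

open LiftP in
/-- A cocycle with boundary `ψ - 1` factors through a group with a rank module. -/
theorem rk_of_cocycle {F Q : Type} [Group F] [Group Q] [Countable Q] (ψ : F →* Q) {n : ℕ}
    (s : Fin n → Q) (δ : F → Fr Q n)
    (hm : ∀ a b, δ (a * b) = δ a + (single (ψ a) 1 : ZG Q) • δ b)
    (hb : ∀ a, bd s (δ a) = single (ψ a) 1 - 1) :
    ∃ (P : Type) (_ : Group P) (φ : F →* P), Nonempty (Rk P) ∧ ∀ v, (φ v = 1 ↔ δ v = 0) := by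
  have h1 : δ 1 = 0 := by
    have := hm 1 1
    rw [mul_one, map_one, ← one_def, one_smul] at this
    exact left_eq_add.mp this
  have h2 : ∀ a, δ a = 0 → ψ a = 1 := fun a ha => by
    have := hb a
    rw [ha, map_zero, eq_comm, sub_eq_zero, one_def] at this
    exact single_left_injective one_ne_zero this
  let K : Subgroup F :=
    { carrier := {a | δ a = 0}
      one_mem' := h1
      mul_mem' := fun {a b} ha hb => by
        change δ (a * b) = 0
        rw [hm, ha, hb, smul_zero, add_zero]
      inv_mem' := fun {a} ha => by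
        have := hm a⁻¹ a
        rw [inv_mul_cancel, h1, ha, smul_zero, add_zero] at this
        exact this.symm }
  have hN : K.Normal := ⟨fun a ha g => by
    change δ (g * a * g⁻¹) = 0
    rw [hm, hm, ha, smul_zero, add_zero, map_mul, h2 a ha, mul_one, ← hm, mul_inv_cancel, h1]⟩
  have ho : ∀ a : F, δ (a : F ⧸ K).out = δ a := fun a => by
    obtain ⟨k, hk⟩ := QuotientGroup.mk_out_eq_mul K a
    rw [hk, hm, k.2, smul_zero, add_zero]
  refine ⟨F ⧸ K, inferInstance, QuotientGroup.mk' K, AZD.rk (Pool.Agent.PD3A.thmA (F ⧸ K) Q n s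
    (QuotientGroup.lift K ψ h2) (fun x => conv Q n (δ x.out)) (fun a b => ?_) (fun a => ?_)
      fun a b => ?_), fun v => QuotientGroup.eq_one_iff v⟩
  · induction a using QuotientGroup.induction_on with
    | H a =>
      induction b using QuotientGroup.induction_on with
      | H b =>
        rw [← QuotientGroup.mk_mul, ho, ho, ho, hm, map_add, conv_smul]
        rfl
  · induction a using QuotientGroup.induction_on with
    | H a =>
      rw [ho, conv_bd, hb]
      rfl
  · induction a using QuotientGroup.induction_on with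
    | H a =>
      induction b using QuotientGroup.induction_on with
      | H b =>
        intro e
        have e' : δ a = δ b := by
          have := conv_inj e
          rwa [ho, ho] at this
        refine QuotientGroup.eq.mpr ?_
        change δ (a⁻¹ * b) = 0
        rw [hm, ← e', ← hm, inv_mul_cancel, h1]

/-- Lifts of all finite sets of relations give a rank module. -/
theorem rk_of_lift {F L : Type} [Group F] [Group L] (π : F →* L) (hπ : Function.Surjective π)
    (h : ∀ R0 B : Finset F, (∀ r ∈ R0, π r = 1) → (∀ w ∈ B, π w ≠ 1) →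
      ∃ (Q : Type) (_ : Group Q) (_ : Countable Q) (ψ : F →* Q) (n : ℕ) (s : Fin n → Q)
        (δ : F → Fr Q n), (∀ a b, δ (a * b) = δ a + (single (ψ a) 1 : ZG Q) • δ b) ∧
        (∀ a, bd s (δ a) = single (ψ a) 1 - 1) ∧ (∀ r ∈ R0, δ r = 0) ∧ ∀ w ∈ B, ψ w ≠ 1) :
    Nonempty (Rk L) := by
  classical
  refine rk_ultra π hπ fun V => ?_
  obtain ⟨Q, _, _, ψ, n, s, δ, hm, hb, h1, h2⟩ := h (V.filter fun v => π v = 1)
    (V.filter fun v => π v ≠ 1) (fun r hr => (Finset.mem_filter.mp hr).2)
    fun r hr => (Finset.mem_filter.mp hr).2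
  obtain ⟨P, _, φ, hR, hφ⟩ := rk_of_cocycle ψ s δ hm hb
  refine ⟨P, inferInstance, φ, hR, fun v hv => (hφ v).trans ⟨fun e => by_contra fun hn => ?_,
    fun e => h1 v (Finset.mem_filter.mpr ⟨hv, e⟩)⟩⟩
  have := hb v
  rw [e, map_zero, eq_comm, sub_eq_zero, one_def] at this
  exact h2 v (Finset.mem_filter.mpr ⟨hv, hn⟩) (single_left_injective one_ne_zero this)

end Pool.Agent.Lib.MP_d98eb9_al.W
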