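import Pool.Agent.Lib.MP_d98eb9_al.W.Sys
import Pool.Agent.Lib.MP_d98eb9_al.W.Comp

/-! Tracks of a nested family of cuts and the bound on their number. -/

namespace Pool.Agent.Lib.MP_d98eb9_al.W

open Gen

variable {G : Type} [Group G]

/-- One of the four corners is empty. -/
def Nest (A B : Set G) : Prop := A ⊆ B ∨ A ⊆ Bᶜ ∨ Aᶜ ⊆ B ∨ Aᶜ ⊆ Bᶜ

namespace TrkP

/-- `A` is the side of a track of `Z`. -/
structure Trk (Γ : Gen G) (R : ℕ) (Z A : Set G) : Prop where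
  sub : Γ.fr A ⊆ Γ.fr Z
  iff : ∀ x ∈ Γ.fr A, (x ∈ A ↔ x ∈ Z)
  rc : Γ.RC R (Γ.fr A)
  cl : ∀ x ∈ Γ.fr A, ∀ y ∈ Γ.fr Z, Γ.d x y ≤ R → y ∈ Γ.fr A

variable {Γ : Gen G} {R : ℕ} {Z Z2 A A2 B B2 U : Set G} {p q x y : G}

theorem fr_l (h : Γ.d x y ≤ 1) (e : ¬ (x ∈ U ↔ y ∈ U)) : x ∈ Γ.fr U := ⟨y, h, e⟩

theorem fr_r (h : Γ.d x y ≤ 1) (e : ¬ (x ∈ U ↔ y ∈ U)) : y ∈ Γ.fr U :=
  ⟨x, by rwa [d_comm], fun e' => e e'.symm⟩

theorem all_of (hp : p ∈ U) (h : ∀ x y, Γ.d x y ≤ 1 → x ∈ U → y ∈ U) (q : G) : q ∈ U :=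
  (conn_empty (Γ := Γ) p q).ind (P := fun z => z ∈ U) hp fun a b _ _ hd ha => h a b hd ha

theorem Trk.compl (h : Trk Γ R Z A) : Trk Γ R Zᶜ Aᶜ where
  sub := by rw [fr_compl, fr_compl]; exact h.sub
  iff x hx := by rw [fr_compl] at hx; exact not_congr (h.iff x hx)
  rc := by rw [fr_compl]; exact h.rc
  cl := by rw [fr_compl, fr_compl]; exact h.cl

theorem Trk.tr (h : Trk Γ R Z A) (g : G) : Trk Γ R (tr g Z) (tr g A) where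
  sub := by rw [← tr_fr, ← tr_fr]; exact tr_mono g h.sub
  iff x hx := by rw [← tr_fr] at hx; exact h.iff _ hx
  rc := by rw [← tr_fr]; exact h.rc.tr g
  cl x hx y hy hd := by
    rw [← tr_fr] at hx hy ⊢
    exact h.cl _ hx _ hy (by rwa [d_mul])

theorem Trk.near (h : Trk Γ R Z A) (hR : 1 ≤ R) (hp : p ∈ Γ.fr A) (hd : Γ.d p x ≤ R) :
    x ∈ A ↔ x ∈ Z := by
  by_contra hx
  obtain ⟨b, ⟨b', hb', e⟩, hb, h3⟩ :=
    exists_fr (Γ := Γ) (U := {y | y ∈ A ↔ y ∈ Z}) (p := p) (q := x) (h.iff p hp) hx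
  have hb2 : b ∈ A ↔ b ∈ Z := hb
  have e2 : ¬ (b' ∈ A ↔ b' ∈ Z) := fun e' => e ⟨fun _ => e', fun _ => hb⟩
  by_cases hA : b ∈ A ↔ b' ∈ A
  · have hZ : ¬ (b ∈ Z ↔ b' ∈ Z) := by tauto
    have h4 := h.cl p hp b (fr_l hb' hZ) (by omega)
    exact e2 (h.iff _ (h.cl b h4 b' (fr_r hb' hZ) (by omega)))
  · exact e2 (h.iff _ (fr_r hb' hA))

theorem Trk.pair (h : Trk Γ R Z A) (hR : 1 ≤ R) (hd : Γ.d x y ≤ R) (hx : x ∈ A) (hy : y ∉ A) :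
    x ∈ Z ∧ y ∉ Z := by
  obtain ⟨t, ht, -, h3⟩ := exists_fr (Γ := Γ) hx hy
  have e := d_comm (Γ := Γ) x t
  exact ⟨(h.near hR ht (by omega)).mp hx, fun hz => hy ((h.near hR ht (by omega)).mpr hz)⟩

theorem Trk.uniq (h : Trk Γ R Z A) (h' : Trk Γ R Z B) (hp : p ∈ Γ.fr A) (hp' : p ∈ Γ.fr B) :
    A = B := by
  have h1 : Γ.fr A ⊆ Γ.fr B := fun q hq =>
    h.rc (Γ.fr B) (fun a _ b hb hd ha => h'.cl a ha b (h.sub hb) hd) p hp q hq hp'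
  have h2 : Γ.fr B ⊆ Γ.fr A := fun q hq =>
    h'.rc (Γ.fr A) (fun a _ b hb hd ha => h.cl a ha b (h'.sub hb) hd) p hp' q hq hp
  refine Set.ext (all_of (Γ := Γ) (U := {x | x ∈ A ↔ x ∈ B})
    ((h.iff p hp).trans (h'.iff p hp').symm) fun x y hd hx => ?_)
  have hx' : x ∈ A ↔ x ∈ B := hx
  change y ∈ A ↔ y ∈ B
  by_cases hA : x ∈ A ↔ y ∈ A
  · by_cases hB : x ∈ B ↔ y ∈ B
    · tauto
    · have := fr_r hd hB
      exact (h.iff y (h2 this)).trans (h'.iff y this).symm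
  · have := fr_r hd hA
    exact (h.iff y this).trans (h'.iff y (h1 this)).symm

theorem exists_trk (h : Γ.LP0) : ∃ R0, ∀ R, R0 ≤ R → ∀ (Z : Set G), ∀ p ∈ Γ.fr Z,
    ∃ A, Trk Γ R Z A ∧ p ∈ Γ.fr A := by
  classical
  obtain ⟨ρ, h⟩ := h
  refine ⟨2 * ρ + 1, fun R hR Z p hp => ?_⟩
  obtain ⟨T, hpT, hTZ, hcl, hrc⟩ : ∃ T : Set G, p ∈ T ∧ T ⊆ Γ.fr Z ∧
      (∀ x ∈ T, ∀ y ∈ Γ.fr Z, Γ.d x y ≤ R → y ∈ T) ∧ Γ.RC R T := by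
    refine ⟨{q | Relation.ReflTransGen (fun a b => b ∈ Γ.fr Z ∧ Γ.d a b ≤ R) p q},
      Relation.ReflTransGen.refl, fun q hq => ?_, fun x hx y hy hd => hx.tail ⟨hy, hd⟩,
      fun S hS => ?_⟩
    · induction hq with
      | refl => exact hp
      | tail _ h2 _ => exact h2.1
    · have key : ∀ q, Relation.ReflTransGen (fun a b => b ∈ Γ.fr Z ∧ Γ.d a b ≤ R) p q →
          (p ∈ S ↔ q ∈ S) := by
        intro q hq
        induction hq with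
        | refl => rfl
        | @tail b c h1 h2 ih =>
          exact ih.trans ⟨hS b h1 c (h1.tail h2) h2.2,
            hS c (h1.tail h2) b h1 (by rw [d_comm]; exact h2.2)⟩
      exact fun a ha b hb haS => (key b hb).mp ((key a ha).mpr haS)
  obtain ⟨u, hu⟩ := h ℤ (fun p i => if p ∈ T then
    (if p * Γ.s i ∈ Z then 1 else 0) - (if p ∈ Z then 1 else 0) else 0) fun x => by
      by_cases hx : ∃ a ∈ T, Γ.d x a ≤ ρ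
      · obtain ⟨a, ha, hd⟩ := hx
        refine ⟨fun p => if p ∈ Z then 1 else 0, fun p i hp => ?_⟩
        by_cases hf : p ∈ Γ.fr Z
        · have e1 := d_tri (Γ := Γ) a x p
          have e2 := d_comm (Γ := Γ) a x
          rw [if_pos (hcl a ha p hf (by omega))]
        · have : p ∈ Z ↔ p * Γ.s i ∈ Z := by_contra fun h => hf ⟨_, d_gen p i, h⟩
          simp [this]
      · exact ⟨0, fun p i hp => by rw [if_neg fun h => hx ⟨p, h, hp⟩]; simp⟩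
  have k1 : ∀ a b, Γ.d a b ≤ 1 → a ∈ T →
      u b - (if b ∈ Z then 1 else 0) = u a - (if a ∈ Z then 1 else 0) := by
    intro a b hd ha
    rcases d_le_one.mp hd with h | ⟨i, h | h⟩
    · rw [h]
    · have := hu a i
      rw [← h, if_pos ha] at this
      omega
    · have := hu b i
      rw [← h] at this
      by_cases hb : b ∈ T
      · rw [if_pos hb] at this
        omega
      · rw [if_neg hb] at this
        have e : a ∈ Z ↔ b ∈ Z := by_contra fun e => hb (hcl a ha b (fr_r hd e) (by omega))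
        simp only [e]
        omega
  have k2 : ∀ a b, Γ.d a b ≤ 1 → a ∉ T → u b = u a := by
    intro a b hd ha
    rcases d_le_one.mp hd with h | ⟨i, h | h⟩
    · rw [h]
    · have := hu a i
      rw [← h, if_neg ha] at this
      omega
    · have := hu b i
      rw [← h] at this
      by_cases hb : b ∈ T
      · have e : a ∈ Z ↔ b ∈ Z := by_contra fun e =>
          ha (hcl b hb a (fr_l hd e) (by rw [d_comm]; omega))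
        rw [if_pos hb] at this
        simp only [e, sub_self] at this
        omega
      · rw [if_neg hb] at this
        omega
  obtain ⟨c, hc⟩ : ∃ c : ℤ, ∀ x ∈ T, u x - (if x ∈ Z then 1 else 0) = c := by
    refine ⟨u p - (if p ∈ Z then 1 else 0), fun x hx => hrc
      {x | u x - (if x ∈ Z then 1 else 0) = u p - (if p ∈ Z then 1 else 0)}
      (fun a ha b _ hd hv => ?_) p hpT x hx rfl⟩
    by_contra hb
    obtain ⟨y, ⟨y', hy', e⟩, hy, h3⟩ := exists_fr (Γ := Γ) hv hb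
    have hy2 : u y - (if y ∈ Z then 1 else 0) = u p - (if p ∈ Z then 1 else 0) := hy
    refine e ⟨fun _ => ?_, fun _ => hy⟩
    change u y' - (if y' ∈ Z then 1 else 0) = _
    by_cases hT : y ∈ T
    · rw [k1 y y' hy' hT, hy2]
    · have e2 : y ∈ Z ↔ y' ∈ Z := by_contra fun e2 => hT (hcl a ha y (fr_l hy' e2) (by omega))
      rw [k2 y y' hy' hT, ← hy2]
      simp only [e2]
  have k3 : ∀ x ∈ T, (x ∈ {x | u x = c + 1} ↔ x ∈ Z) := fun x hx => by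
    have := hc x hx
    change u x = c + 1 ↔ _
    by_cases hZ : x ∈ Z
    · rw [if_pos hZ] at this
      exact ⟨fun _ => hZ, fun _ => by omega⟩
    · rw [if_neg hZ] at this
      exact ⟨fun _ => by omega, fun h => absurd h hZ⟩
  have k4 : Γ.fr {x | u x = c + 1} = T := by
    refine Set.Subset.antisymm (fun x ⟨y, hd, e⟩ => by_contra fun hx => e ?_) fun x hx => ?_
    · change u x = c + 1 ↔ u y = c + 1
      rw [k2 x y hd hx]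
    · obtain ⟨y, hd, e⟩ := hTZ hx
      have hy := hcl x hx y (fr_r hd e) (by omega)
      exact ⟨y, hd, by rw [k3 x hx, k3 y hy]; exact e⟩
  refine ⟨{x | u x = c + 1}, ⟨?_, ?_, ?_, ?_⟩, ?_⟩ <;> rw [k4] <;> assumption

theorem Trk.jump (h : Trk Γ R Z A) (hR : 1 ≤ R) (hy : y ∈ Z) (h1 : Γ.d p x ≤ 1)
    (h2 : Γ.d p q ≤ R) (h3 : Γ.d q y ≤ 1) (hx : x ∈ A) : y ∈ A := by
  by_contra hyA
  have hyT : y ∉ Γ.fr A := fun e => hyA ((h.iff y e).mpr hy)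
  have hq : q ∉ A := fun e => hyT (mem_fr' e hyA h3)
  obtain ⟨t, ht, hd⟩ : ∃ t ∈ Γ.fr A, Γ.d t q ≤ R := by
    by_cases hp : p ∈ A
    · obtain ⟨t, ht, -, h4⟩ := exists_fr (Γ := Γ) hp hq
      exact ⟨t, ht, by omega⟩
    · exact ⟨p, mem_fr' hx hp (by rwa [d_comm]), h2⟩
  have hqZ : q ∉ Z := fun e => hq ((h.near hR ht hd).mpr e)
  have e : ¬ (q ∈ Z ↔ y ∈ Z) := by tauto
  exact hyT (h.cl q (h.cl t ht q (fr_l h3 e) hd) y (fr_r h3 e) (by omega))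

theorem Trk.side (h : Trk Γ R Z A) (h2 : Trk Γ R Z2 A2) (hR : 1 ≤ R) (hZ : Z ⊆ Z2) :
    (∀ x ∈ Γ.fr A, x ∈ Z → x ∈ A2) ∨ ∀ x ∈ Γ.fr A, x ∈ Z → x ∈ A2ᶜ := by
  by_cases hex : ∃ x ∈ Γ.fr A, x ∈ Z ∧ x ∈ A2
  · obtain ⟨x, hx, -, hxA⟩ := hex
    refine Or.inl fun y hy hyZ => ?_
    obtain ⟨z, hz, hd⟩ := h.rc {p | ∃ z ∈ A2, Γ.d p z ≤ 1} (fun a _ b hb hd ⟨z, hz, hd'⟩ => by
      obtain ⟨b', hb', e⟩ := h.sub hb
      by_cases hbZ : b ∈ Z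
      · exact ⟨b, h2.jump hR (hZ hbZ) hd' hd (by simp) hz, by simp⟩
      · exact ⟨b', h2.jump hR (hZ (by tauto)) hd' hd hb' hz, hb'⟩) x hx y hy ⟨x, hxA, by simp⟩
    exact h2.jump hR (hZ hyZ) hd (q := y) (by simp) (by simp) hz
  · exact Or.inr fun x hx hxZ hxA => hex ⟨x, hx, hxZ, hxA⟩

theorem corner (hZ : Z ⊆ Z2) (e : Γ.fr B = Γ.fr A) (e2 : Γ.fr B2 = Γ.fr A2)
    (c : ∀ x y, Γ.d x y ≤ 1 → ¬ (x ∈ B ↔ y ∈ B) → ¬ (x ∈ Z ↔ y ∈ Z))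
    (c2 : ∀ x y, Γ.d x y ≤ 1 → ¬ (x ∈ B2 ↔ y ∈ B2) → ¬ (x ∈ Z2 ↔ y ∈ Z2))
    (s : ∀ x ∈ Γ.fr A, x ∈ Z → x ∈ B2) (s2 : ∀ x ∈ Γ.fr A2, x ∈ Z2ᶜ → x ∈ B)
    (hne : (Γ.fr A).Nonempty) : Bᶜ ⊆ B2 := by
  intro w hw
  by_contra hw2
  have key := all_of (Γ := Γ) (U := {x | x ∉ B ∧ x ∉ B2}) ⟨hw, hw2⟩ fun x y hd hx => by
    obtain ⟨hx1, hx2⟩ := hx
    have k1 : y ∈ B → y ∈ Z ∧ y ∈ B2 := fun hy => by
      have e3 : ¬ (x ∈ B ↔ y ∈ B) := by tauto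
      have h1 := s x (e ▸ fr_l hd e3)
      have h2 := s y (e ▸ fr_r hd e3)
      have h3 := c x y hd e3
      tauto
    have k2 : y ∈ B2 → y ∉ Z2 ∧ y ∈ B := fun hy => by
      have e3 : ¬ (x ∈ B2 ↔ y ∈ B2) := by tauto
      have h1 : x ∉ Z2 → x ∈ B := s2 x (e2 ▸ fr_l hd e3)
      have h2 : y ∉ Z2 → y ∈ B := s2 y (e2 ▸ fr_r hd e3)
      have h3 := c2 x y hd e3
      tauto
    exact ⟨fun hy => (k2 (k1 hy).2).1 (hZ (k1 hy).1),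
      fun hy => (k2 hy).1 (hZ (k1 (k2 hy).2).1)⟩
  obtain ⟨a, ha⟩ := hne
  rw [← e] at ha
  obtain ⟨b, -, hab⟩ := ha
  exact hab ⟨fun h => absurd h (key a).1, fun h => absurd h (key b).1⟩

theorem Trk.cross (h : Trk Γ R Z A) (x y : G) (hd : Γ.d x y ≤ 1) (e : ¬ (x ∈ A ↔ y ∈ A)) :
    ¬ (x ∈ Z ↔ y ∈ Z) := by
  rwa [← h.iff x (fr_l hd e), ← h.iff y (fr_r hd e)]

theorem Trk.nest_sub (h : Trk Γ R Z A) (h2 : Trk Γ R Z2 A2) (hR : 1 ≤ R) (hZ : Z ⊆ Z2)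
    (hne : (Γ.fr A).Nonempty) : Nest A A2 := by
  have c' : ∀ x y, Γ.d x y ≤ 1 → ¬ (x ∈ Aᶜ ↔ y ∈ Aᶜ) → ¬ (x ∈ Z ↔ y ∈ Z) :=
    fun x y hd e => h.cross x y hd fun e' => e (not_congr e')
  have c2' : ∀ x y, Γ.d x y ≤ 1 → ¬ (x ∈ A2ᶜ ↔ y ∈ A2ᶜ) → ¬ (x ∈ Z2 ↔ y ∈ Z2) :=
    fun x y hd e => h2.cross x y hd fun e' => e (not_congr e')
  have t := h2.compl.side h.compl hR (Set.compl_subset_compl.mpr hZ)
  rw [fr_compl, compl_compl] at t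
  rcases h.side h2 hR hZ with s | s <;> rcases t with t | t
  · exact Or.inl (compl_compl A ▸ corner hZ (fr_compl A) rfl c' h2.cross s t hne)
  · exact Or.inr (Or.inr (Or.inl (corner hZ rfl rfl h.cross h2.cross s t hne)))
  · exact Or.inr (Or.inl (compl_compl A ▸ corner hZ (fr_compl A) (fr_compl A2) c' c2' s t hne))
  · exact Or.inr (Or.inr (Or.inr (corner hZ rfl (fr_compl A2) h.cross c2' s t hne)))

theorem Trk.nest (h : Trk Γ R Z A) (h2 : Trk Γ R Z2 A2) (hR : 1 ≤ R) (hZ : Nest Z Z2)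
    (hne : (Γ.fr A).Nonempty) : Nest A A2 := by
  have hne' : (Γ.fr Aᶜ).Nonempty := by rwa [fr_compl]
  rcases hZ with hZ | hZ | hZ | hZ
  · exact h.nest_sub h2 hR hZ hne
  · have := h.nest_sub h2.compl hR hZ hne
    simp only [Nest, compl_compl] at this ⊢
    tauto
  · have := h.compl.nest_sub h2 hR hZ hne'
    simp only [Nest, compl_compl] at this ⊢
    tauto
  · have := h.compl.nest_sub h2.compl hR hZ hne'
    simp only [Nest, compl_compl] at this ⊢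
    tauto

theorem Trk.cocpt (h : Trk Γ R Z A) (hZ : Γ.Near (Γ.fr Z) (blk ⊤ Z)) :
    Γ.Near (Γ.fr A) (blk ⊤ A) :=
  near_of_stab ((Near.of_subset h.sub).trans hZ) fun c hc a ha hca => by
    have h1 := h.tr c
    rw [hc.2] at h1
    exact ⟨trivial, h1.uniq h (by rw [← tr_fr]; exact mul_mem_tr.mpr ha) hca⟩

theorem fg_stab (hrc : Γ.RC R (Γ.fr A)) (hn : Γ.Near (Γ.fr A) (blk ⊤ A))
    (hne : (Γ.fr A).Nonempty) : (blk ⊤ A).FG :=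
  fg_of_near hrc hn (near_of_inv (fun c hc a ha => by
    rw [← hc.2, ← tr_fr]
    exact mul_mem_tr.mpr ha) hne)

theorem orb_finite (hn : Γ.Near (Γ.fr A) (blk ⊤ A)) (p : G) :
    {B | (∃ g, B = tr g A) ∧ p ∈ Γ.fr B}.Finite := by
  obtain ⟨r, hr⟩ := hn
  refine ((ball_finite (Γ := Γ) 1 r).image fun b => tr (p * b⁻¹) A).subset ?_
  rintro _ ⟨⟨g, rfl⟩, hp⟩
  rw [← tr_fr] at hp
  obtain ⟨k, hk, hd⟩ := hr hp
  refine ⟨k⁻¹ * (g⁻¹ * p), by rwa [d_eq] at hd, ?_⟩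
  have e : p * (k⁻¹ * (g⁻¹ * p))⁻¹ = g * k := by group
  change tr (p * (k⁻¹ * (g⁻¹ * p))⁻¹) A = _
  rw [e, ← tr_tr, hk.2]

omit [Group G] in
theorem Nest.chain (h : Nest A B) (hx : x ∈ A) (hx' : x ∈ B) (hy : y ∉ A) (hy' : y ∉ B) :
    A ⊆ B ∨ B ⊆ A := by
  rcases h with h | h | h | h
  · exact Or.inl h
  · exact absurd hx' (h hx)
  · exact absurd (h hy) hy'
  · exact Or.inr (Set.compl_subset_compl.mp h)

theorem chain_at (h : Nest A B) (hp : p ∈ Γ.fr A) (e : ∀ x, Γ.d p x ≤ 1 → (x ∈ A ↔ x ∈ B)) :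
    A ⊆ B ∨ B ⊆ A := by
  obtain ⟨q, hd, hq⟩ := hp
  have h1 := e p (by simp)
  have h2 := e q hd
  by_cases hA : p ∈ A
  · exact Nest.chain h hA (h1.mp hA) (y := q) (by tauto) (by tauto)
  · exact Nest.chain h (x := q) (by tauto) (by tauto) hA (by tauto)

/-- Every member is the largest one with its trace on some ball. -/
theorem exists_max {S : Set (Set G)} (hn : ∀ A ∈ S, ∀ B ∈ S, Nest A B)
    (hrc : ∀ A ∈ S, Γ.RC R (Γ.fr A)) (hlf : ∀ p, {B | B ∈ S ∧ p ∈ Γ.fr B}.Finite) (hA : A ∈ S)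
    (hne : (Γ.fr A).Nonempty) :
    ∃ c, ∀ B ∈ S, (∀ x, Γ.d c x ≤ R + 1 → (x ∈ A ↔ x ∈ B)) → B ⊆ A := by
  by_contra hcon
  push Not at hcon
  have hfr : ∀ c ∈ Γ.fr A, ∀ B : Set G, (∀ x, Γ.d c x ≤ 1 → (x ∈ A ↔ x ∈ B)) → c ∈ Γ.fr B :=
    fun c ⟨y, hd, e⟩ B hB => ⟨y, hd, by rwa [← hB c (by simp), ← hB y hd]⟩
  have key : ∀ c ∈ Γ.fr A, ∃ M, IsLeast
      {B | B ∈ S ∧ A ⊂ B ∧ ∀ x, Γ.d c x ≤ 1 → (x ∈ A ↔ x ∈ B)} M ∧
      ∀ x, Γ.d c x ≤ R + 1 → (x ∈ A ↔ x ∈ M) := by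
    intro c hc
    obtain ⟨B, hB, h1, h2⟩ := hcon c
    have h3 : ∀ x, Γ.d c x ≤ 1 → (x ∈ A ↔ x ∈ B) := fun x hd => h1 x (by omega)
    have hmem : B ∈ {B | B ∈ S ∧ A ⊂ B ∧ ∀ x, Γ.d c x ≤ 1 → (x ∈ A ↔ x ∈ B)} :=
      ⟨hB, ⟨(chain_at (hn A hA B hB) hc h3).resolve_right h2, h2⟩, h3⟩
    obtain ⟨M, hM⟩ := ((hlf c).subset fun B hB => ⟨hB.1, hfr c hc B hB.2.2⟩ :
      {B | B ∈ S ∧ A ⊂ B ∧ ∀ x, Γ.d c x ≤ 1 → (x ∈ A ↔ x ∈ B)}.Finite).exists_minimal ⟨B, hmem⟩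
    have hl : ∀ B' ∈ {B | B ∈ S ∧ A ⊂ B ∧ ∀ x, Γ.d c x ≤ 1 → (x ∈ A ↔ x ∈ B)}, M ⊆ B' :=
      fun B' hB' => (chain_at (hn M hM.1.1 B' hB'.1) (hfr c hc M hM.1.2.2)
        fun x hd => (hM.1.2.2 x hd).symm.trans (hB'.2.2 x hd)).elim id fun h => hM.2 hB' h
    exact ⟨M, ⟨hM.1, hl⟩, fun x hd =>
      ⟨fun h => hM.1.2.1.1 h, fun h => (h1 x hd).mpr (hl B hmem h)⟩⟩
  obtain ⟨c0, hc0⟩ := hne
  choose! M hM hM' using key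
  have hle : ∀ a ∈ Γ.fr A, ∀ b ∈ Γ.fr A, Γ.d a b ≤ R → M b ⊆ M a := fun a ha b hb hd =>
    (hM b hb).2 ⟨(hM a ha).1.1, (hM a ha).1.2.1, fun x hx => hM' a ha x
      ((d_tri a b x).trans (by omega))⟩
  have hc : ∀ c ∈ Γ.fr A, M c = M c0 := fun c hc =>
    hrc A hA {c | M c = M c0} (fun a ha b hb hd e => Eq.trans
      (Set.Subset.antisymm (hle a ha b hb hd) (hle b hb a ha (by rwa [d_comm]))) e) c0 hc0 c hc rfl
  have hag : ∀ c ∈ Γ.fr A, ∀ x, Γ.d c x ≤ R + 1 → (x ∈ A ↔ x ∈ M c0) :=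
    fun c h => hc c h ▸ hM' c h
  have hsub : Γ.fr (M c0) ⊆ Γ.fr A := fun y hy =>
    hrc _ (hM c0 hc0).1.1 (Γ.fr A) (fun a _ b ⟨b', hd', e⟩ hd ha => ⟨b', hd', by
      rwa [hag a ha b (by omega), hag a ha b' ((d_tri a b b').trans (by omega))]⟩)
      c0 (hfr c0 hc0 _ (hM c0 hc0).1.2.2) y hy hc0
  refine (hM c0 hc0).1.2.1.ne (Set.ext (all_of (Γ := Γ) (U := {x | x ∈ A ↔ x ∈ M c0})
    (hag c0 hc0 c0 (by simp)) fun x y hd hx => ?_))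
  have hx' : x ∈ A ↔ x ∈ M c0 := hx
  change y ∈ A ↔ y ∈ M c0
  by_cases h1 : x ∈ A ↔ y ∈ A
  · by_cases h2 : x ∈ M c0 ↔ y ∈ M c0
    · tauto
    · exact hag y (hsub (fr_r hd h2)) y (by simp)
  · exact hag y (fr_r hd h1) y (by simp)

/-- An invariant nested family of cocompact cuts with coarsely connected frontiers has finitely
many orbits. -/
theorem orbits_finite {S : Set (Set G)} (hinv : ∀ g, ∀ A ∈ S, tr g A ∈ S)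
    (hn : ∀ A ∈ S, ∀ B ∈ S, Nest A B) (hrc : ∀ A ∈ S, Γ.RC R (Γ.fr A))
    (hco : ∀ A ∈ S, Γ.Near (Γ.fr A) (blk ⊤ A)) (hne : ∀ A ∈ S, (Γ.fr A).Nonempty) :
    ((fun A => {B | ∃ g, B = tr g A}) '' S).Finite := by
  by_contra hinf
  have hP := (ball_finite (Γ := Γ) 1 (R + 1)).finite_subsets
  obtain ⟨t, ht, hfin, hcard⟩ := Set.Infinite.exists_subset_ncard_eq hinf
    ({b | b ⊆ {q | Γ.d 1 q ≤ R + 1}}.ncard + 1)
  have hsub : ⋃₀ t ⊆ S := by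
    rintro B ⟨o, ho, hB⟩
    obtain ⟨A, hA, rfl⟩ := ht ho
    obtain ⟨g, rfl⟩ := hB
    exact hinv g A hA
  have hinv' : ∀ g, ∀ B ∈ ⋃₀ t, tr g B ∈ ⋃₀ t := by
    rintro g B ⟨o, ho, hB⟩
    refine ⟨o, ho, ?_⟩
    obtain ⟨A, hA, rfl⟩ := ht ho
    obtain ⟨k, rfl⟩ := hB
    exact ⟨g * k, tr_tr g k A⟩
  have hlf : ∀ p, {B | B ∈ ⋃₀ t ∧ p ∈ Γ.fr B}.Finite := fun p => by
    refine (hfin.biUnion (t := fun o => {B | B ∈ o ∧ p ∈ Γ.fr B}) fun o ho => ?_).subset ?_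
    · obtain ⟨A, hA, rfl⟩ := ht ho
      exact orb_finite (hco A hA) p
    · rintro B ⟨⟨o, ho, hB⟩, hp⟩
      exact Set.mem_biUnion ho ⟨hB, hp⟩
  have key : ∀ o ∈ t, ∃ B ∈ ⋃₀ t, o = {B' | ∃ g, B' = tr g B} ∧
      ∀ B' ∈ ⋃₀ t, (∀ x, Γ.d 1 x ≤ R + 1 → (x ∈ B ↔ x ∈ B')) → B' ⊆ B := by
    intro o ho
    obtain ⟨A, hA, rfl⟩ := ht ho
    have hA' : A ∈ ⋃₀ t := ⟨_, ho, 1, (tr_one A).symm⟩
    obtain ⟨c, hc⟩ := exists_max (fun A hA B hB => hn A (hsub hA) B (hsub hB))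
      (fun A hA => hrc A (hsub hA)) hlf hA' (hne A hA)
    refine ⟨tr c⁻¹ A, hinv' _ A hA', Set.ext fun B' => ⟨?_, ?_⟩, fun B' hB' e => ?_⟩
    · rintro ⟨g, rfl⟩
      exact ⟨g * c, by rw [tr_tr, mul_inv_cancel_right]⟩
    · rintro ⟨g, rfl⟩
      exact ⟨_, tr_tr g c⁻¹ A⟩
    · have := tr_mono c⁻¹ (hc (tr c B') (hinv' c B' hB') fun x hd => by
        simpa using e (c⁻¹ * x) (by rwa [d_eq] at hd))
      rwa [tr_inv_tr] at this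
  choose! B hB hB1 hB2 using key
  have := Set.ncard_le_ncard_of_injOn (s := t) (fun o => B o ∩ {q | Γ.d 1 q ≤ R + 1})
    (fun o _ => Set.inter_subset_right) (fun o ho o' ho' e => by
      have e1 : ∀ x, Γ.d 1 x ≤ R + 1 → (x ∈ B o ↔ x ∈ B o') := fun x hx =>
        ⟨fun h => (e.le ⟨h, hx⟩).1, fun h => (e.ge ⟨h, hx⟩).1⟩
      rw [hB1 o ho, hB1 o' ho', Set.Subset.antisymm (hB2 o' ho' _ (hB o ho)
        fun x hx => (e1 x hx).symm) (hB2 o ho _ (hB o' ho') e1)]) hP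
  omega

/-- Such a family is locally finite. -/
theorem loc_finite {S : Set (Set G)} (hinv : ∀ g, ∀ A ∈ S, tr g A ∈ S)
    (hn : ∀ A ∈ S, ∀ B ∈ S, Nest A B) (hrc : ∀ A ∈ S, Γ.RC R (Γ.fr A))
    (hco : ∀ A ∈ S, Γ.Near (Γ.fr A) (blk ⊤ A)) (hne : ∀ A ∈ S, (Γ.fr A).Nonempty) (p : G) :
    {A | A ∈ S ∧ p ∈ Γ.fr A}.Finite := by
  refine ((orbits_finite hinv hn hrc hco hne).biUnion
    (t := fun o => {B | B ∈ o ∧ p ∈ Γ.fr B}) fun o ho => ?_).subset ?_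
  · obtain ⟨A, hA, rfl⟩ := ho
    exact orb_finite (hco A hA) p
  · rintro A ⟨hA, hp⟩
    exact Set.mem_biUnion (Set.mem_image_of_mem _ hA) ⟨⟨1, (tr_one A).symm⟩, hp⟩

end TrkP

open TrkP in
/-- Tracks through an edge: finitely many for the whole family. -/
theorem trk (Γ : Gen G) (hLP : Γ.LP0) (κ : ℕ) (ZZ : Set (Set G))
    (hinv : ∀ g, ∀ Z ∈ ZZ, tr g Z ∈ ZZ) (hn : ∀ Z ∈ ZZ, ∀ Z' ∈ ZZ, Nest Z Z')
    (hco : ∀ Z ∈ ZZ, Γ.Near (Γ.fr Z) (blk ⊤ Z)) (p q : G) (hd : Γ.d p q ≤ 1) :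
    ∃ F : Set (Set G), F.Finite ∧ ∀ Z ∈ ZZ, p ∈ Z → q ∉ Z → ∃ A ∈ F, p ∈ A ∧ q ∉ A ∧
      (∀ a b, Γ.d a b ≤ κ → a ∈ A → b ∉ A → a ∈ Z ∧ b ∉ Z) ∧ (blk ⊤ A).FG ∧
      Γ.Near (Γ.fr A) (blk ⊤ A) ∧ ∀ g, Nest A (tr g A) := by
  obtain ⟨R0, h0⟩ := exists_trk hLP
  have hR : 1 ≤ R0 + κ + 1 := by omega
  refine ⟨_, loc_finite (Γ := Γ) (R := R0 + κ + 1)
    (S := {A | (Γ.fr A).Nonempty ∧ ∃ Z ∈ ZZ, Trk Γ (R0 + κ + 1) Z A})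
    (fun g A ⟨⟨a, ha⟩, Z, hZ, h⟩ => ⟨⟨g * a, by rw [← tr_fr]; exact mul_mem_tr.mpr ha⟩, _,
      hinv g Z hZ, h.tr g⟩)
    (fun A ⟨ha, Z, hZ, h⟩ B ⟨_, Z', hZ', h'⟩ => h.nest h' hR (hn Z hZ Z' hZ') ha)
    (fun A ⟨_, Z, _, h⟩ => h.rc) (fun A ⟨_, Z, hZ, h⟩ => h.cocpt (hco Z hZ))
    (fun A h => h.1) p, fun Z hZ hp hq => ?_⟩
  obtain ⟨A, h, hA⟩ := h0 (R0 + κ + 1) (by omega) Z p (mem_fr hp hq hd)
  exact ⟨A, ⟨⟨⟨p, hA⟩, Z, hZ, h⟩, hA⟩, (h.iff p hA).mpr hp,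
    fun e => hq ((h.near hR hA (by omega)).mp e), fun a b hab => h.pair hR (by omega),
    fg_stab h.rc (h.cocpt (hco Z hZ)) ⟨p, hA⟩, h.cocpt (hco Z hZ),
    fun g => h.nest (h.tr g) hR (hn Z hZ _ (hinv g Z hZ)) ⟨p, hA⟩⟩

end Pool.Agent.Lib.MP_d98eb9_al.W
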